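import Mathlib

namespace Pool.Agent.Results.MP_9d2565_co.Interlacing

open Polynomial Finset

/-- Descent positions of a permutation `π`, viewed as the word `π(1) ⋯ π(n)`: the positions
`k ∈ {1, …, n-1}` with `π(k) > π(k+1)`.  Entries are indexed by `Fin n`, so the `k`-th letter of
the word is `π ⟨k - 1, _⟩` and the `(k+1)`-st one is `π ⟨k, _⟩`. -/
def DES {n : ℕ} (π : Equiv.Perm (Fin n)) : Finset ℕ :=
  (Finset.Ico 1 n).filter fun k => ∃ (h : k < n) (h' : k - 1 < n), π ⟨k, h⟩ < π ⟨k - 1, h'⟩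

/-- The multivariate Eulerian polynomial `E_n(x_1, …, x_{n-1}) = ∑_π ∏_{k ∈ DES π} x_k`. -/
noncomputable def E (n : ℕ) : MvPolynomial ℕ ℝ :=
  ∑ π : Equiv.Perm (Fin n), ∏ k ∈ DES π, MvPolynomial.X k

/-- The specialisation `e_n(t) = E_n(λ_1 t, …, λ_{n-1} t)`. -/
noncomputable def e (lam : ℕ → ℝ) (n : ℕ) : ℝ[X] :=
  MvPolynomial.aeval (fun k => C (lam k) * X) (E n)

/-- `f ⪯ g`: all roots of `f` and of `g` are real (the number of real roots counted with
multiplicity is the degree) and `≤ 0`, and, the roots being listed with multiplicity in decreasing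
order, `0 ≥ g_1 ≥ f_1 ≥ g_2 ≥ f_2 ≥ ⋯` (so that `deg g` is `deg f` or `deg f + 1`). -/
def Interlaces (f g : ℝ[X]) : Prop :=
  f ≠ 0 ∧ g ≠ 0 ∧ f.roots.card = f.natDegree ∧ g.roots.card = g.natDegree ∧
  (g.natDegree = f.natDegree ∨ g.natDegree = f.natDegree + 1) ∧
  (∀ x ∈ f.roots, x ≤ 0) ∧ (∀ x ∈ g.roots, x ≤ 0) ∧
  (∀ (i : ℕ) (hf : i < (f.roots.sort (· ≥ ·)).length) (hg : i < (g.roots.sort (· ≥ ·)).length),
    (f.roots.sort (· ≥ ·))[i] ≤ (g.roots.sort (· ≥ ·))[i]) ∧
  (∀ (i : ℕ) (hf : i < (f.roots.sort (· ≥ ·)).length)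
    (hg : i + 1 < (g.roots.sort (· ≥ ·)).length),
    (g.roots.sort (· ≥ ·))[i + 1] ≤ (f.roots.sort (· ≥ ·))[i])

/-- the weight `∏_{k ∈ DES π} λ_k t` of a permutation -/
noncomputable def wt (lam : ℕ → ℝ) {n : ℕ} (π : Equiv.Perm (Fin n)) : ℝ[X] :=
  ∏ k ∈ DES π, (C (lam k) * X)

theorem e_eq (lam : ℕ → ℝ) (n : ℕ) : e lam n = ∑ π : Equiv.Perm (Fin n), wt lam π := by
  simp [e, E, wt]

/-- insert last letter -/
def mk {n : ℕ} (p : Fin (n + 2)) (σ : Equiv.Perm (Fin (n + 1))) : Equiv.Perm (Fin (n + 2)) :=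
  (finSuccEquiv' (Fin.last (n + 1))).trans ((Equiv.optionCongr σ).trans (finSuccEquiv' p).symm)

theorem mk_last {n : ℕ} (p : Fin (n + 2)) (σ : Equiv.Perm (Fin (n + 1))) :
    mk p σ (Fin.last (n + 1)) = p := by
  simp [mk]

theorem mk_castSucc {n : ℕ} (p : Fin (n + 2)) (σ : Equiv.Perm (Fin (n + 1))) (i : Fin (n + 1)) :
    mk p σ i.castSucc = p.succAbove (σ i) := by
  simp [mk, finSuccEquiv'_last_apply_castSucc]

theorem mk_bij {n : ℕ} : Function.Bijective
    (fun x : Fin (n + 2) × Equiv.Perm (Fin (n + 1)) => mk x.1 x.2) := by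
  rw [Fintype.bijective_iff_injective_and_card]
  constructor
  · rintro ⟨p, σ⟩ ⟨q, τ⟩ h
    simp only at h
    have h1 : p = q := by
      rw [← mk_last p σ, h, mk_last]
    subst h1
    congr 1
    ext i
    have h2 : mk p σ i.castSucc = mk p τ i.castSucc := by rw [h]
    rw [mk_castSucc, mk_castSucc] at h2
    rw [Fin.succAbove_right_injective h2]
  · simp [Fintype.card_perm, Nat.factorial_succ]

theorem DES_mk {n : ℕ} (p : Fin (n + 2)) (σ : Equiv.Perm (Fin (n + 1))) :
    DES (mk p σ) = if p ≤ (σ (Fin.last n)).castSucc then insert (n + 1) (DES σ) else DES σ := by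
  ext k
  have key : k ∈ DES (mk p σ) ↔ (k ∈ DES σ ∨ (k = n + 1 ∧ p ≤ (σ (Fin.last n)).castSucc)) := by
    simp only [DES, mem_filter, mem_Ico]
    constructor
    · rintro ⟨⟨hk1, hk2⟩, h, h', hlt⟩
      by_cases hk : k = n + 1
      · right
        refine ⟨hk, ?_⟩
        subst hk
        have e1 : (⟨n + 1, h⟩ : Fin (n + 2)) = Fin.last (n + 1) := rfl
        have e2 : (⟨n + 1 - 1, h'⟩ : Fin (n + 2)) = (Fin.last n).castSucc := rfl
        rw [e1, e2, mk_last, mk_castSucc] at hlt
        exact (Fin.lt_succAbove_iff_le_castSucc _ _).1 hlt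
      · left
        have hk3 : k < n + 1 := by omega
        refine ⟨⟨hk1, hk3⟩, hk3, by omega, ?_⟩
        have e1 : (⟨k, h⟩ : Fin (n + 2)) = (⟨k, hk3⟩ : Fin (n + 1)).castSucc := rfl
        have e2 : (⟨k - 1, h'⟩ : Fin (n + 2)) = (⟨k - 1, by omega⟩ : Fin (n + 1)).castSucc := rfl
        rw [e1, e2, mk_castSucc, mk_castSucc] at hlt
        exact (Fin.succAbove_lt_succAbove_iff).1 hlt
    · rintro (⟨⟨hk1, hk2⟩, h, h', hlt⟩ | ⟨rfl, hp⟩)
      · refine ⟨⟨hk1, by omega⟩, by omega, by omega, ?_⟩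
        have e1 : (⟨k, by omega⟩ : Fin (n + 2)) = (⟨k, h⟩ : Fin (n + 1)).castSucc := rfl
        have e2 : (⟨k - 1, by omega⟩ : Fin (n + 2)) = (⟨k - 1, h'⟩ : Fin (n + 1)).castSucc := rfl
        rw [e1, e2, mk_castSucc, mk_castSucc]
        exact (Fin.succAbove_lt_succAbove_iff).2 hlt
      · refine ⟨⟨by omega, by omega⟩, by omega, by omega, ?_⟩
        have e1 : (⟨n + 1, by omega⟩ : Fin (n + 2)) = Fin.last (n + 1) := rfl
        have e2 : (⟨n + 1 - 1, by omega⟩ : Fin (n + 2)) = (Fin.last n).castSucc := rfl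
        rw [e1, e2, mk_last, mk_castSucc]
        exact (Fin.lt_succAbove_iff_le_castSucc _ _).2 hp
  rw [key]
  split_ifs with h
  · simp only [h, and_true, mem_insert]; tauto
  · simp [h]

theorem wt_mk (lam : ℕ → ℝ) {n : ℕ} (p : Fin (n + 2)) (σ : Equiv.Perm (Fin (n + 1))) :
    wt lam (mk p σ) =
      (if p ≤ (σ (Fin.last n)).castSucc then C (lam (n + 1)) * X else 1) * wt lam σ := by
  unfold wt
  rw [DES_mk]
  split_ifs with h
  · rw [Finset.prod_insert]
    intro hh
    simp [DES] at hh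
  · simp

noncomputable def G (lam : ℕ → ℝ) (n : ℕ) (j : Fin (n + 1)) : ℝ[X] :=
  ∑ σ : Equiv.Perm (Fin (n + 1)), if σ (Fin.last n) = j then wt lam σ else 0

theorem e_eq_sum_G (lam : ℕ → ℝ) (n : ℕ) : e lam (n + 1) = ∑ j, G lam n j := by
  unfold G
  rw [e_eq, Finset.sum_comm]
  apply Finset.sum_congr rfl
  intro σ _
  simp

theorem G_succ (lam : ℕ → ℝ) (n : ℕ) (p : Fin (n + 2)) :
    G lam (n + 1) p =
      ∑ i : Fin (n + 1), (if p ≤ i.castSucc then C (lam (n + 1)) * X else 1) * G lam n i := by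
  have h1 : G lam (n + 1) p = ∑ σ : Equiv.Perm (Fin (n + 1)), wt lam (mk p σ) := by
    unfold G
    rw [← (Equiv.ofBijective _ (mk_bij (n := n))).sum_comp]
    simp only [Equiv.ofBijective_apply, mk_last]
    rw [Fintype.sum_prod_type]
    rw [Finset.sum_eq_single p]
    · simp
    · intro b _ hb
      simp [hb]
    · simp
  rw [h1]
  simp only [wt_mk, G, Finset.mul_sum]
  rw [Finset.sum_comm]
  apply Finset.sum_congr rfl
  intro σ _
  simp [mul_ite]

/-- value of the Wronskian `f g' - f' g` at `x` -/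
noncomputable def W (f g : ℝ[X]) (x : ℝ) : ℝ :=
  f.eval x * (derivative g).eval x - (derivative f).eval x * g.eval x

theorem W_sum_sum {ι : Type*} (S T : Finset ι) (F : ι → ℝ[X]) (x : ℝ) :
    W (∑ i ∈ S, F i) (∑ j ∈ T, F j) x = ∑ i ∈ S, ∑ j ∈ T, W (F i) (F j) x := by
  unfold W
  simp only [derivative_sum, eval_finsetSum, Finset.sum_sub_distrib, Finset.sum_mul_sum]

theorem W_sum_X_sum {ι : Type*} (S T : Finset ι) (F : ι → ℝ[X]) (x : ℝ) :
    W (∑ i ∈ S, F i) (X * ∑ j ∈ T, F j) x = ∑ i ∈ S, ∑ j ∈ T, W (F i) (X * F j) x := by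
  rw [Finset.mul_sum]
  unfold W
  simp only [derivative_sum, eval_finsetSum, Finset.sum_sub_distrib, Finset.sum_mul_sum]

/-- the invariant -/
def Good {n : ℕ} (F : Fin n → ℝ[X]) : Prop :=
  ∀ i j, i < j → ∀ x, 0 ≤ W (F j) (F i) x ∧ 0 ≤ W (F i) (X * F j) x

theorem W_X (f g : ℝ[X]) (x : ℝ) :
    W f (X * g) x = f.eval x * g.eval x + x * W f g x := by
  unfold W
  simp
  ring

theorem good_step (l : ℝ) (hl : 0 ≤ l) {n : ℕ} (F : Fin (n + 1) → ℝ[X]) (hF : Good F) :
    Good (fun p : Fin (n + 2) =>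
      ∑ i : Fin (n + 1), (if p ≤ i.castSucc then C l * X else 1) * F i) := by
  intro p q hpq x
  set SA := Finset.univ.filter (fun i : Fin (n + 1) => i.castSucc < p) with hSA
  set SB := Finset.univ.filter (fun i : Fin (n + 1) => p ≤ i.castSucc ∧ i.castSucc < q) with hSB
  set SC := Finset.univ.filter (fun i : Fin (n + 1) => q ≤ i.castSucc) with hSC
  set A := ∑ i ∈ SA, F i with hA
  set B := ∑ i ∈ SB, F i with hB
  set D := ∑ i ∈ SC, F i with hD
  have hp : ∑ i : Fin (n + 1), (if p ≤ i.castSucc then C l * X else 1) * F i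
      = A + C l * X * (B + D) := by
    rw [hA, hB, hD, hSA, hSB, hSC]
    simp only [Finset.sum_filter, mul_add, Finset.mul_sum, ← Finset.sum_add_distrib]
    apply Finset.sum_congr rfl
    intro i _
    rcases lt_or_ge i.castSucc p with h1 | h1
    · have h2 : i.castSucc < q := lt_trans h1 hpq
      simp [not_le.2 h1, h1, not_le.2 h2]
    · rcases lt_or_ge i.castSucc q with h2 | h2
      · simp [h1, not_lt.2 h1, h2, not_le.2 h2]
      · simp [h1, not_lt.2 h1, h2, not_lt.2 h2]
  have hq : ∑ i : Fin (n + 1), (if q ≤ i.castSucc then C l * X else 1) * F i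
      = A + B + C l * X * D := by
    rw [hA, hB, hD, hSA, hSB, hSC]
    simp only [Finset.sum_filter, Finset.mul_sum, ← Finset.sum_add_distrib]
    apply Finset.sum_congr rfl
    intro i _
    rcases lt_or_ge i.castSucc p with h1 | h1
    · have h2 : i.castSucc < q := lt_trans h1 hpq
      simp [not_le.2 h1, h1, not_le.2 h2]
    · rcases lt_or_ge i.castSucc q with h2 | h2
      · simp [h1, not_lt.2 h1, h2, not_le.2 h2]
      · simp [h1, not_lt.2 h1, h2, not_lt.2 h2]
  have hBA : 0 ≤ W B A x := by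
    rw [hB, hA, W_sum_sum]
    apply Finset.sum_nonneg; intro i hi
    apply Finset.sum_nonneg; intro j hj
    simp only [hSB, hSA, Finset.mem_filter, Finset.mem_univ, true_and] at hi hj
    refine (hF j i ?_ x).1
    rw [← Fin.castSucc_lt_castSucc_iff]; exact lt_of_lt_of_le hj hi.1
  have hDB : 0 ≤ W D B x := by
    rw [hD, hB, W_sum_sum]
    apply Finset.sum_nonneg; intro i hi
    apply Finset.sum_nonneg; intro j hj
    simp only [hSB, hSC, Finset.mem_filter, Finset.mem_univ, true_and] at hi hj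
    refine (hF j i ?_ x).1
    rw [← Fin.castSucc_lt_castSucc_iff]; exact lt_of_lt_of_le hj.2 hi
  have hAB : 0 ≤ W A (X * B) x := by
    rw [hA, hB, W_sum_X_sum]
    apply Finset.sum_nonneg; intro i hi
    apply Finset.sum_nonneg; intro j hj
    simp only [hSB, hSA, Finset.mem_filter, Finset.mem_univ, true_and] at hi hj
    refine (hF i j ?_ x).2
    rw [← Fin.castSucc_lt_castSucc_iff]; exact lt_of_lt_of_le hi hj.1
  have hBD : 0 ≤ W B (X * D) x := by
    rw [hB, hD, W_sum_X_sum]
    apply Finset.sum_nonneg; intro i hi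
    apply Finset.sum_nonneg; intro j hj
    simp only [hSB, hSC, Finset.mem_filter, Finset.mem_univ, true_and] at hi hj
    refine (hF i j ?_ x).2
    rw [← Fin.castSucc_lt_castSucc_iff]; exact lt_of_lt_of_le hi.2 hj
  simp only [hp, hq]
  constructor
  · have key : W (A + B + C l * X * D) (A + C l * X * (B + D)) x =
      l * W A (X * B) x + W B A x + l * (B.eval x) ^ 2 + l * W B (X * D) x
        + l ^ 2 * x ^ 2 * W D B x := by
      unfold W
      simp
      ring
    rw [key]
    positivity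
  · have key : W (A + C l * X * (B + D)) (X * (A + B + C l * X * D)) x =
      (A.eval x + l * x * D.eval x) ^ 2 + W A (X * B) x + l * x ^ 2 * W B A x
        + l ^ 2 * x ^ 2 * W B (X * D) x + l * x ^ 2 * W D B x := by
      unfold W
      simp
      ring
    rw [key]
    positivity

theorem good_G (lam : ℕ → ℝ) (hlam : ∀ k, 1 ≤ k → 0 < lam k) (n : ℕ) : Good (G lam n) := by
  induction n with
  | zero =>
    intro i j hij
    exact absurd hij (by have h1 := i.2; have h2 := j.2; rw [Fin.lt_def]; omega)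
  | succ n ih =>
    have h := good_step (lam (n + 1)) (hlam _ (by omega)).le (G lam n) ih
    have h2 : G lam (n + 1) = (fun p : Fin (n + 2) =>
      ∑ i : Fin (n + 1), (if p ≤ i.castSucc then C (lam (n + 1)) * X else 1) * G lam n i) := by
      ext1 p; exact G_succ lam n p
    rw [h2]; exact h

theorem G_last (lam : ℕ → ℝ) (n : ℕ) : G lam (n + 1) (Fin.last (n + 1)) = e lam (n + 1) := by
  rw [G_succ, e_eq_sum_G]
  apply Finset.sum_congr rfl
  intro i _
  rw [if_neg, one_mul]
  exact not_le.2 (Fin.castSucc_lt_last i)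

theorem G_zero (lam : ℕ → ℝ) (n : ℕ) :
    G lam (n + 1) 0 = C (lam (n + 1)) * X * e lam (n + 1) := by
  rw [G_succ, e_eq_sum_G, Finset.mul_sum]
  apply Finset.sum_congr rfl
  intro i _
  rw [if_pos (Fin.zero_le _)]

theorem G_pen (lam : ℕ → ℝ) (n : ℕ) :
    G lam (n + 2) (Fin.last (n + 1)).castSucc =
      e lam (n + 2) + (C (lam (n + 2)) * X - 1) * e lam (n + 1) := by
  rw [G_succ, e_eq_sum_G, Fin.sum_univ_castSucc, Fin.sum_univ_castSucc (n := n + 1), G_last]
  rw [if_pos le_rfl]
  have : ∀ i : Fin (n + 1), (if (Fin.last (n + 1)).castSucc ≤ i.castSucc.castSucc then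
      C (lam (n + 1 + 1)) * X else (1 : ℝ[X])) = 1 := by
    intro i
    rw [if_neg]
    rw [Fin.castSucc_le_castSucc_iff]
    exact not_le.2 (Fin.castSucc_lt_last i)
  simp only [this, one_mul]
  ring

theorem wt_eval_nonneg (lam : ℕ → ℝ) (hlam : ∀ k, 1 ≤ k → 0 < lam k) {n : ℕ}
    (π : Equiv.Perm (Fin n)) (x : ℝ) (hx : 0 ≤ x) : 0 ≤ (wt lam π).eval x := by
  unfold wt
  rw [eval_prod]
  apply Finset.prod_nonneg
  intro k hk
  simp only [DES, mem_filter, mem_Ico] at hk
  have := hlam k hk.1.1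
  simp
  positivity

theorem e_eval_pos (lam : ℕ → ℝ) (hlam : ∀ k, 1 ≤ k → 0 < lam k) (n : ℕ) (x : ℝ) (hx : 0 ≤ x) :
    0 < (e lam n).eval x := by
  rw [e_eq, eval_finsetSum]
  have h1 : (wt lam (1 : Equiv.Perm (Fin n))).eval x = 1 := by
    have : DES (1 : Equiv.Perm (Fin n)) = ∅ := by
      ext k
      simp only [DES, mem_filter, mem_Ico, Equiv.Perm.coe_one, id_eq, Fin.mk_lt_mk,
        Finset.notMem_empty, iff_false]
      rintro ⟨_, _, _, h⟩
      omega
    simp [wt, this]
  calc (0 : ℝ) < 1 := one_pos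
    _ = (wt lam (1 : Equiv.Perm (Fin n))).eval x := h1.symm
    _ ≤ _ := Finset.single_le_sum (f := fun π : Equiv.Perm (Fin n) => (wt lam π).eval x)
      (fun π _ => wt_eval_nonneg lam hlam π x hx) (Finset.mem_univ 1)

theorem W_sum_right {ι : Type*} (T : Finset ι) (f : ℝ[X]) (F : ι → ℝ[X]) (x : ℝ) :
    W f (∑ j ∈ T, F j) x = ∑ j ∈ T, W f (F j) x := by
  unfold W
  simp only [derivative_sum, eval_finsetSum, Finset.sum_sub_distrib, Finset.mul_sum]

theorem e_one (lam : ℕ → ℝ) : e lam 1 = 1 := by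
  rw [e_eq]
  simp [wt, DES]

theorem W_pos (lam : ℕ → ℝ) (hlam : ∀ k, 1 ≤ k → 0 < lam k) (n : ℕ) (x : ℝ) :
    0 < W (e lam (n + 1)) (e lam (n + 2)) x := by
  induction n with
  | zero =>
    have h : e lam 2 = 1 + C (lam 1) * X := by
      rw [e_eq_sum_G lam 1, Fin.sum_univ_two, G_zero, show (1 : Fin 2) = Fin.last 1 from rfl, G_last,
        e_one]
      ring
    rw [show (0 + 2) = 2 from rfl, h, show (0 + 1) = 1 from rfl, e_one]
    simp [W]
    exact hlam 1 le_rfl
  | succ n ih =>
    have hg := good_G lam hlam (n + 2)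
    have e1 : W (e lam (n + 1 + 1)) (e lam (n + 1 + 2)) x =
        ∑ p, W (G lam (n + 2) (Fin.last (n + 2))) (G lam (n + 2) p) x := by
      rw [G_last, e_eq_sum_G lam (n + 2), W_sum_right]
    have hnn : ∀ p, 0 ≤ W (G lam (n + 2) (Fin.last (n + 2))) (G lam (n + 2) p) x := by
      intro p
      rcases lt_or_eq_of_le (Fin.le_last p) with h | h
      · exact (hg p _ h x).1
      · rw [h]; unfold W; ring_nf; exact le_rfl
    rw [e1]
    have l1 := hlam (n + 2) (by omega)
    by_cases h0 : (e lam (n + 2)).eval x = 0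
    · apply Finset.sum_pos' (fun p _ => hnn p)
      refine ⟨(Fin.last (n + 1)).castSucc, Finset.mem_univ _, ?_⟩
      rw [G_last, G_pen]
      have hx : x < 0 := by
        by_contra hx
        have := e_eval_pos lam hlam (n + 2) x (not_lt.1 hx)
        linarith
      have : W (e lam (n + 1 + 1)) (e lam (n + 2) + (C (lam (n + 2)) * X - 1) * e lam (n + 1)) x
          = (1 - lam (n + 2) * x) * W (e lam (n + 1)) (e lam (n + 2)) x
            + lam (n + 2) * (e lam (n + 2)).eval x * (e lam (n + 1)).eval x := by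
        unfold W
        simp
        ring
      rw [this, h0]
      have h2 : 0 < 1 - lam (n + 2) * x := by nlinarith
      have := mul_pos h2 ih
      simpa using this
    · apply Finset.sum_pos' (fun p _ => hnn p)
      refine ⟨0, Finset.mem_univ _, ?_⟩
      rw [G_last, G_zero]
      have : W (e lam (n + 1 + 1)) (C (lam (n + 1 + 1)) * X * e lam (n + 1 + 1)) x
          = lam (n + 2) * ((e lam (n + 2)).eval x) ^ 2 := by
        unfold W
        simp
        ring
      rw [this]
      positivity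


/-! ### degree and leading coefficient -/

theorem wt_eq (lam : ℕ → ℝ) {n : ℕ} (π : Equiv.Perm (Fin n)) :
    wt lam π = C (∏ k ∈ DES π, lam k) * X ^ (DES π).card := by
  unfold wt
  rw [Finset.prod_mul_distrib, Finset.prod_const, map_prod]

theorem card_DES_le {n : ℕ} (π : Equiv.Perm (Fin n)) : (DES π).card ≤ n - 1 := by
  calc (DES π).card ≤ (Finset.Ico 1 n).card := Finset.card_filter_le _ _
    _ = n - 1 := by simp

theorem natDegree_e_le (lam : ℕ → ℝ) (n : ℕ) : (e lam n).natDegree ≤ n - 1 := by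
  rw [e_eq]
  apply natDegree_sum_le_of_forall_le
  intro π _
  rw [wt_eq]
  exact (natDegree_C_mul_X_pow_le _ _).trans (card_DES_le π)

theorem coeff_e_pos (lam : ℕ → ℝ) (hlam : ∀ k, 1 ≤ k → 0 < lam k) (n : ℕ) :
    0 < (e lam n).coeff (n - 1) := by
  rw [e_eq, finsetSum_coeff]
  have hpos : ∀ π : Equiv.Perm (Fin n), 0 < ∏ k ∈ DES π, lam k := by
    intro π
    apply Finset.prod_pos
    intro k hk
    simp only [DES, mem_filter, mem_Ico] at hk
    exact hlam k hk.1.1
  apply Finset.sum_pos'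
  · intro π _
    rw [wt_eq, coeff_C_mul_X_pow]
    split_ifs
    · exact (hpos π).le
    · exact le_rfl
  · refine ⟨Fin.revPerm, Finset.mem_univ _, ?_⟩
    have hD : DES (Fin.revPerm : Equiv.Perm (Fin n)) = Finset.Ico 1 n := by
      ext k
      simp only [DES, mem_filter, and_iff_left_iff_imp, mem_Ico, Fin.revPerm_apply]
      rintro ⟨h1, h2⟩
      refine ⟨h2, by omega, ?_⟩
      rw [Fin.rev_lt_rev, Fin.mk_lt_mk]
      omega
    rw [wt_eq, coeff_C_mul_X_pow, if_pos]
    · exact hpos _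
    · rw [hD]; simp

theorem natDegree_e (lam : ℕ → ℝ) (hlam : ∀ k, 1 ≤ k → 0 < lam k) (n : ℕ) :
    (e lam n).natDegree = n - 1 :=
  le_antisymm (natDegree_e_le lam n) (le_natDegree_of_ne_zero (coeff_e_pos lam hlam n).ne')

theorem leadingCoeff_e_pos (lam : ℕ → ℝ) (hlam : ∀ k, 1 ≤ k → 0 < lam k) (n : ℕ) :
    0 < (e lam n).leadingCoeff := by
  rw [leadingCoeff, natDegree_e lam hlam]
  exact coeff_e_pos lam hlam n

/-! ### from Wronskian positivity to interlacing -/

theorem roots_of_injective (f : ℝ[X]) (d : ℕ) (hd : f.natDegree = d) (hf : f ≠ 0) (r : ℕ → ℝ)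
    (hr : ∀ i < d, f.eval (r i) = 0) (hinj : ∀ i < d, ∀ j < d, r i = r j → i = j) :
    f.roots = (Multiset.range d).map r := by
  symm
  apply Multiset.eq_of_le_of_card_le
  · rw [Multiset.le_iff_subset]
    · intro a ha
      rw [Multiset.mem_map] at ha
      obtain ⟨i, hi, rfl⟩ := ha
      rw [mem_roots hf]
      exact hr i (Multiset.mem_range.1 hi)
    · apply Multiset.Nodup.map_on
      · intro i hi j hj h
        exact hinj i (Multiset.mem_range.1 hi) j (Multiset.mem_range.1 hj) h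
      · exact Multiset.nodup_range d
  · rw [Multiset.card_map, Multiset.card_range]
    exact (card_roots' f).trans hd.le

/-- sign of the derivative at the roots -/
theorem sign_deriv (c : ℝ) (hc : 0 < c) (d : ℕ) (r : ℕ → ℝ)
    (hr : ∀ i j, i < j → j < d → r j < r i) (i : ℕ) (hi : i < d) :
    0 < (-1 : ℝ) ^ i * (derivative (C c * ∏ j ∈ range d, (X - C (r j)))).eval (r i) := by
  have h1 : (derivative (C c * ∏ j ∈ range d, (X - C (r j)))).eval (r i)
      = c * ∏ j ∈ (range d).erase i, (r i - r j) := by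
    rw [derivative_C_mul, eval_mul, eval_C]
    congr 1
    rw [← Finset.mul_prod_erase (range d) (fun j => (X - C (r j))) (Finset.mem_range.2 hi)]
    rw [derivative_mul]
    simp [eval_prod]
  rw [h1]
  have h2 : (range d).erase i = range i ∪ Finset.Ico (i + 1) d := by
    ext j
    simp only [mem_erase, mem_range, mem_union, mem_Ico]
    omega
  have h3 : Disjoint (range i) (Finset.Ico (i + 1) d) := by
    rw [Finset.disjoint_left]
    intro j hj
    simp only [mem_range, mem_Ico] at hj ⊢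
    omega
  rw [h2, Finset.prod_union h3]
  have h4 : (-1 : ℝ) ^ i * ∏ j ∈ range i, (r i - r j) = ∏ j ∈ range i, (r j - r i) := by
    have : (-1 : ℝ) ^ i = ∏ j ∈ range i, (-1 : ℝ) := by simp
    rw [this, ← Finset.prod_mul_distrib]
    apply Finset.prod_congr rfl
    intro j _
    ring
  have h5 : 0 < ∏ j ∈ range i, (r j - r i) := by
    apply Finset.prod_pos
    intro j hj
    have := hr j i (Finset.mem_range.1 hj) hi
    linarith
  have h6 : 0 < ∏ j ∈ Finset.Ico (i + 1) d, (r i - r j) := by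
    apply Finset.prod_pos
    intro j hj
    rw [Finset.mem_Ico] at hj
    have := hr i j (by omega) hj.2
    linarith
  calc (0 : ℝ) < c * ((∏ j ∈ range i, (r j - r i)) * ∏ j ∈ Finset.Ico (i + 1) d, (r i - r j)) := by
        positivity
    _ = _ := by rw [← h4]; ring

/-- existence of a far negative point with the right sign -/
theorem exists_far (g : ℝ[X]) (d : ℕ) (hd : g.natDegree = d + 1) (hg : 0 < g.leadingCoeff)
    (b : ℝ) : ∃ y, y < b ∧ 0 < (-1 : ℝ) ^ (d + 1) * g.eval y := by
  set h : ℝ[X] := C ((-1 : ℝ) ^ (d + 1)) * g.comp (-X) with hh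
  have hne : ((-1 : ℝ) ^ (d + 1)) ≠ 0 := by positivity
  have hg0 : g ≠ 0 := by
    intro h0; rw [h0] at hg; simp at hg
  have hdeg : h.natDegree = d + 1 := by
    rw [hh, natDegree_C_mul hne, natDegree_comp, natDegree_neg, natDegree_X, hd, mul_one]
  have hlc : h.leadingCoeff = g.leadingCoeff := by
    rw [hh, leadingCoeff_mul, leadingCoeff_C, leadingCoeff_comp (by simp), hd]
    rw [leadingCoeff_neg, leadingCoeff_X]
    have : ((-1 : ℝ) ^ (d + 1)) * ((-1 : ℝ) ^ (d + 1)) = 1 := by
      rw [← mul_pow]; simp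
    calc (-1 : ℝ) ^ (d + 1) * (g.leadingCoeff * (-1) ^ (d + 1)) =
        ((-1 : ℝ) ^ (d + 1)) * ((-1 : ℝ) ^ (d + 1)) * g.leadingCoeff := by ring
      _ = g.leadingCoeff := by rw [this, one_mul]
  have ht := tendsto_atTop_of_leadingCoeff_nonneg h
    (by rw [degree_eq_natDegree (by intro h0; rw [h0] at hdeg; simp at hdeg), hdeg]; exact_mod_cast Nat.succ_pos d)
    (by rw [hlc]; exact hg.le)
  have h1 := (ht.eventually (Filter.eventually_gt_atTop 0)).and (Filter.eventually_gt_atTop (-b))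
  obtain ⟨z, hz1, hz2⟩ := h1.exists
  refine ⟨-z, by linarith, ?_⟩
  rw [hh] at hz1
  simpa using hz1

theorem step (f g : ℝ[X]) (d : ℕ) (hfd : f.natDegree = d) (hf : 0 < f.leadingCoeff)
    (hgd : g.natDegree = d + 1) (hg : 0 < g.leadingCoeff) (hg0 : 0 < g.eval 0)
    (hW : ∀ x, 0 < W f g x) (r : ℕ → ℝ)
    (hroot : f.roots = (Multiset.range d).map r)
    (hr : ∀ i j, i < j → j < d → r j < r i) (hr0 : ∀ i < d, r i < 0) :
    ∃ s : ℕ → ℝ, g.roots = (Multiset.range (d + 1)).map s ∧
      (∀ i j, i < j → j < d + 1 → s j < s i) ∧ (∀ i < d + 1, s i < 0) ∧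
      (∀ i < d, r i < s i) ∧ (∀ i < d, s (i + 1) < r i) := by
  have hfprod : f = C f.leadingCoeff * ∏ j ∈ range d, (X - C (r j)) := by
    have h := C_leadingCoeff_mul_prod_multiset_X_sub_C (p := f) (by rw [hroot, hfd]; simp)
    rw [← h]
    rw [leadingCoeff_mul, leadingCoeff_C]
    rw [(monic_multiset_prod_of_monic _ _ (fun a _ => monic_X_sub_C a)).leadingCoeff, mul_one]
    congr 1
    rw [hroot, Multiset.map_map]
    rfl
  obtain ⟨y, hy1, hy2⟩ := exists_far g d hgd hg (if d = 0 then 0 else r (d - 1))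
  -- augmented points t 0 = 0, t (i+1) = r i, t (d+1) = y
  set t : ℕ → ℝ := fun i => if i = 0 then 0 else if i = d + 1 then y else r (i - 1) with ht
  have ht0 : t 0 = 0 := by simp [ht]
  have htr : ∀ i < d, t (i + 1) = r i := by
    intro i hi
    simp only [ht]
    rw [if_neg (by omega), if_neg (by omega)]
    simp
  have hty : t (d + 1) = y := by simp [ht]
  have htlt : ∀ i ≤ d, t (i + 1) < t i := by
    intro i hi
    rcases Nat.eq_zero_or_pos i with rfl | hi0
    · rw [ht0]
      rcases Nat.eq_zero_or_pos d with rfl | hd0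
      · rw [hty]; simpa using hy1
      · rw [htr 0 hd0]; exact hr0 0 hd0
    · obtain ⟨k, rfl⟩ : ∃ k, i = k + 1 := ⟨i - 1, by omega⟩
      rw [htr k (by omega)]
      rcases Nat.lt_or_ge (k + 1) d with h | h
      · rw [htr (k + 1) h]
        exact hr _ _ (by omega) h
      · have : k + 1 = d := by omega
        rw [this, hty]
        rw [if_neg (by omega)] at hy1
        have h2 : d - 1 = k := by omega
        rw [h2] at hy1; exact hy1
  have hsign : ∀ i ≤ d + 1, 0 < (-1 : ℝ) ^ i * g.eval (t i) := by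
    intro i hi
    rcases Nat.eq_zero_or_pos i with rfl | hi0
    · rw [ht0]; simpa using hg0
    · obtain ⟨k, rfl⟩ : ∃ k, i = k + 1 := ⟨i - 1, by omega⟩
      rcases Nat.lt_or_ge k d with h | h
      · rw [htr k h]
        have h1 := sign_deriv f.leadingCoeff hf d r hr k h
        rw [← hfprod] at h1
        have h2 := hW (r k)
        have h3 : f.eval (r k) = 0 := by
          have : r k ∈ f.roots := by
            rw [hroot]; exact Multiset.mem_map.2 ⟨k, Multiset.mem_range.2 h, rfl⟩
          exact (mem_roots'.1 this).2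
        unfold W at h2
        rw [h3] at h2
        have h4 : (derivative f).eval (r k) * g.eval (r k) < 0 := by linarith
        have h5 : ((-1 : ℝ) ^ k * (derivative f).eval (r k)) * ((-1 : ℝ) ^ (k + 1) * g.eval (r k))
          = - (((-1 : ℝ) ^ k) ^ 2 * ((derivative f).eval (r k) * g.eval (r k))) := by ring
        have h6 : ((-1 : ℝ) ^ k) ^ 2 = 1 := by
          rw [← pow_mul, mul_comm, pow_mul]; simp
        rw [h6, one_mul] at h5
        have h7 : 0 < ((-1 : ℝ) ^ k * (derivative f).eval (r k)) *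
            ((-1 : ℝ) ^ (k + 1) * g.eval (r k)) := by rw [h5]; linarith
        exact (pos_iff_pos_of_mul_pos h7).1 h1
      · have : k = d := by omega
        rw [this, hty]; exact hy2
  have hex : ∀ i, i ≤ d → ∃ z, t (i + 1) < z ∧ z < t i ∧ g.eval z = 0 := by
    intro i hi
    have h1 := hsign i (by omega)
    have h2 := hsign (i + 1) (by omega)
    have hcont : ContinuousOn (fun x => (-1 : ℝ) ^ i * g.eval x) (Set.Icc (t (i + 1)) (t i)) :=
      (continuous_const.mul g.continuous).continuousOn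
    have hlt := htlt i hi
    have h3 : (0 : ℝ) ∈ Set.Ioo ((fun x => (-1 : ℝ) ^ i * g.eval x) (t (i + 1)))
        ((fun x => (-1 : ℝ) ^ i * g.eval x) (t i)) := by
      constructor
      · simp only
        rw [pow_succ] at h2
        linarith
      · exact h1
    obtain ⟨z, hz, hz2⟩ := intermediate_value_Ioo hlt.le hcont h3
    refine ⟨z, hz.1, hz.2, ?_⟩
    simp only at hz2
    rcases mul_eq_zero.1 hz2 with h | h
    · exact absurd h (by positivity)
    · exact h
  choose! s hs1 hs2 hs3 using hex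
  have hanti : ∀ i j, i < j → j < d + 1 → s j < s i := by
    intro i j hij
    induction j, hij using Nat.le_induction with
    | base =>
      intro h
      exact lt_trans (hs2 (i + 1) (by omega)) (hs1 i (by omega))
    | succ k hk ih =>
      intro h
      exact lt_trans (lt_trans (hs2 (k + 1) (by omega)) (hs1 k (by omega))) (ih (by omega))
  refine ⟨s, ?_, hanti, ?_, ?_, ?_⟩
  · apply roots_of_injective g (d + 1) hgd
    · intro h0; rw [h0] at hg; simp at hg
    · intro i hi; exact hs3 i (by omega)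
    · intro i hi j hj h
      by_contra hne
      rcases Nat.lt_or_gt_of_ne hne with h1 | h1
      · have := hanti i j h1 hj; linarith
      · have := hanti j i h1 hi; linarith
  · intro i hi
    have h0 : s 0 < 0 := by have := hs2 0 (by omega); rw [ht0] at this; exact this
    rcases Nat.eq_zero_or_pos i with rfl | hi0
    · exact h0
    · exact (hanti 0 i hi0 hi).trans h0
  · intro i hi
    have := hs1 i (by omega)
    rwa [htr i hi] at this
  · intro i hi
    have := hs2 (i + 1) (by omega)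
    rwa [htr i hi] at this

/-- The roots of all the `e_n` and their interlacing, by induction. -/
theorem main (lam : ℕ → ℝ) (hlam : ∀ k, 1 ≤ k → 0 < lam k) (n : ℕ) :
    ∃ r s : ℕ → ℝ, (e lam (n + 1)).roots = (Multiset.range n).map r ∧
      (e lam (n + 2)).roots = (Multiset.range (n + 1)).map s ∧
      (∀ i j, i < j → j < n → r j < r i) ∧ (∀ i < n, r i < 0) ∧
      (∀ i j, i < j → j < n + 1 → s j < s i) ∧ (∀ i < n + 1, s i < 0) ∧
      (∀ i < n, r i < s i) ∧ (∀ i < n, s (i + 1) < r i) := by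
  have hstep : ∀ m, ∀ r : ℕ → ℝ, (e lam (m + 1)).roots = (Multiset.range m).map r →
      (∀ i j, i < j → j < m → r j < r i) → (∀ i < m, r i < 0) →
      ∃ s : ℕ → ℝ, (e lam (m + 2)).roots = (Multiset.range (m + 1)).map s ∧
      (∀ i j, i < j → j < m + 1 → s j < s i) ∧ (∀ i < m + 1, s i < 0) ∧
      (∀ i < m, r i < s i) ∧ (∀ i < m, s (i + 1) < r i) := by
    intro m r h1 h2 h3
    exact step (e lam (m + 1)) (e lam (m + 2)) m (natDegree_e lam hlam _)
      (leadingCoeff_e_pos lam hlam _) (natDegree_e lam hlam _) (leadingCoeff_e_pos lam hlam _)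
      (e_eval_pos lam hlam _ 0 le_rfl) (W_pos lam hlam m) r h1 h2 h3
  induction n with
  | zero =>
    have h0 : (e lam (0 + 1)).roots = (Multiset.range 0).map (fun _ => (0 : ℝ)) := by
      rw [show (0 + 1) = 1 from rfl, e_one]; simp
    obtain ⟨s, hs⟩ := hstep 0 (fun _ => 0) h0 (by intro i j _ h; omega) (by intro i h; omega)
    exact ⟨fun _ => 0, s, h0, hs.1, by intro i j _ h; omega, by intro i h; omega, hs.2⟩
  | succ n ih =>
    obtain ⟨r, s, _, h2, _, _, h5, h6, _, _⟩ := ih
    obtain ⟨s', hs'⟩ := hstep (n + 1) s h2 h5 h6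
    exact ⟨s, s', h2, hs'.1, h5, h6, hs'.2⟩


theorem sort_eq (d : ℕ) (r : ℕ → ℝ) (hr : ∀ i j, i < j → j < d → r j < r i) :
    ((Multiset.range d).map r).sort (· ≥ ·) = (List.range d).map r := by
  have h1 : ((Multiset.range d).map r) = (((List.range d).map r : List ℝ) : Multiset ℝ) := by
    rw [Multiset.range, Multiset.map_coe]
  rw [h1]
  apply List.Perm.eq_of_pairwise (le := (· ≥ ·))
  · intro a b _ _ h1 h2; exact le_antisymm h2 h1
  · exact Multiset.pairwise_sort _ _
  · rw [List.pairwise_map, List.pairwise_iff_getElem]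
    intro i j hi hj hij
    simp only [List.getElem_range]
    rw [List.length_range] at hj
    exact (hr i j hij hj).le
  · rw [← Multiset.coe_eq_coe, Multiset.sort_eq]

/-- **Answer to Q1**: for every sequence of positive reals and every `n ≥ 2`,
`e_{n-1} ⪯ e_n`. -/
theorem result (lam : ℕ → ℝ) (hlam : ∀ k, 1 ≤ k → 0 < lam k) (n : ℕ) (hn : 2 ≤ n) :
    Interlaces (e lam (n - 1)) (e lam n) := by
  obtain ⟨m, rfl⟩ : ∃ m, n = m + 2 := ⟨n - 2, by omega⟩
  obtain ⟨r, s, h1, h2, h3, h4, h5, h6, h7, h8⟩ := main lam hlam m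
  rw [show m + 2 - 1 = m + 1 from rfl]
  have d1 : (e lam (m + 1)).natDegree = m := natDegree_e lam hlam _
  have d2 : (e lam (m + 2)).natDegree = m + 1 := natDegree_e lam hlam _
  have n1 : e lam (m + 1) ≠ 0 := by
    intro h
    have := leadingCoeff_e_pos lam hlam (m + 1)
    rw [h] at this; simp at this
  have n2 : e lam (m + 2) ≠ 0 := by
    intro h
    have := leadingCoeff_e_pos lam hlam (m + 2)
    rw [h] at this; simp at this
  refine ⟨n1, n2, ?_, ?_, ?_, ?_, ?_, ?_, ?_⟩
  · rw [h1, d1]; simp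
  · rw [h2, d2]; simp
  · right; rw [d1, d2]
  · intro x hx
    rw [h1, Multiset.mem_map] at hx
    obtain ⟨i, hi, rfl⟩ := hx
    exact (h4 i (Multiset.mem_range.1 hi)).le
  · intro x hx
    rw [h2, Multiset.mem_map] at hx
    obtain ⟨i, hi, rfl⟩ := hx
    exact (h6 i (Multiset.mem_range.1 hi)).le
  · simp only [h1, h2, sort_eq m r h3, sort_eq (m + 1) s h5]
    intro i hf hg
    simp only [List.length_map, List.length_range] at hf
    simp only [List.getElem_map, List.getElem_range]
    exact (h7 i hf).le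
  · simp only [h1, h2, sort_eq m r h3, sort_eq (m + 1) s h5]
    intro i hf hg
    simp only [List.length_map, List.length_range] at hf
    simp only [List.getElem_map, List.getElem_range]
    exact (h8 i hf).le

end Pool.Agent.Results.MP_9d2565_co.Interlacing
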